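import Pool.Agent.H55.BP.Uni
import Pool.Graph.R_seed8.Results.MP_2d259b_nt.FibresOffPolynomialValues

/-!
# Integer points on the curves `F(x,y) = g(z)` for polynomial values `g(z)`

Let `F` be an integer polynomial of degree `d ≥ 4` with squarefree leading form.  A fibre
`F(x,y) = t` is called bad if it contains an integer point larger than an explicit power of
`(d+1)(len F + |t|)`.  For a polynomial `g` of degree `e ≥ 1` the number of `z` in an interval of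
length `Z` for which the fibre over `g(z)` is bad is at most `C (H(|z₀|+Z))^ε Z^(gcd(d,e)/d)`, and
at most `C (H(|z₀|+Z))^ε Z^(1/2)` unless `g` is the composition of a rational polynomial of
degree `d` with another polynomial.  The constants depend on `d, e, ε` only.
-/

open Polynomial

namespace Pool.Agent.Results.MP_2d259b_nt.FibresAtPolynomialValues

open Pool.Agent.H55.BP

/-- The integers `z` in `[z₀, z₀ + Z]` for which the curve `F(x,y) = g(z)` has an integer point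
larger than the explicit power `((d+1)(len F + |g(z)|))^(10^17·1296^d·(d+1)^15)`. -/
def Bad (d : ℕ) (F : MvPolynomial (Fin 2) ℤ) (g : ℤ[X]) (z₀ : ℤ) (Z : ℕ) : Set ℤ :=
  {z : ℤ | z₀ ≤ z ∧ z ≤ z₀ + Z ∧ ∃ x y : ℤ, MvPolynomial.eval ![x, y] F = g.eval z ∧
    ((d + 1) * (∑ m ∈ F.support, (F.coeff m).natAbs + (g.eval z).natAbs)) ^
      (10 ^ 17 * 1296 ^ d * (d + 1) ^ 15) < max x.natAbs y.natAbs}

lemma bad_finite (d : ℕ) (F : MvPolynomial (Fin 2) ℤ) (g : ℤ[X]) (z₀ : ℤ) (Z : ℕ) :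
    (Bad d F g z₀ Z).Finite :=
  (Set.finite_Icc z₀ (z₀ + Z)).subset fun _ hz => ⟨hz.1, hz.2.1⟩

lemma key (d e q : ℕ) (hd : 4 ≤ d) (he : 1 ≤ e) (hq : 2 ≤ q) (ε : ℝ) (hε : 0 < ε) :
    ∃ K : ℝ, 0 < K ∧ ∀ F : MvPolynomial (Fin 2) ℤ, F.totalDegree = d →
      Squarefree (MvPolynomial.map (Int.castRingHom ℚ)
        (MvPolynomial.homogeneousComponent d F)) →
      ∀ g : ℤ[X], g.natDegree = e → ∀ z₀ : ℤ,
      (∀ U : ℤ[X], U.natDegree = d → NoSmall U (g.comp (X + C z₀)) q) →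
      ∀ H Z : ℕ, (∀ i, |g.coeff i| ≤ H) → 1 ≤ Z →
        ((Bad d F g z₀ Z).ncard : ℝ)
          ≤ K * ((H : ℝ) * (|(z₀ : ℝ)| + Z)) ^ ε * (Z : ℝ) ^ (1 / (q : ℝ)) := by
  classical
  obtain ⟨K, hK, hmain⟩ := bp_family d e q (by omega) he hq ε hε
  refine ⟨(10 ^ 9 * 36 ^ d * (d + 1) ^ 8 : ℕ) * K, by positivity, ?_⟩
  intro F hF hsq g hg z₀ hN H Z hH hZ
  obtain ⟨⟨T, hT1, hT2, hT3⟩, -⟩ :=
    Pool.Agent.Results.MP_2d259b_nt.FibresOffPolynomialValues.result d hd F hF hsq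
  have hfin := bad_finite d F g z₀ Z
  rw [Set.ncard_eq_toFinset_card _ hfin]
  apply hmain g hg z₀ hN H Z hH hZ _ T hT1 hT2
  · intro z hz
    rw [Set.Finite.mem_toFinset] at hz
    exact ⟨hz.1, hz.2.1⟩
  · intro z hz
    rw [Set.Finite.mem_toFinset] at hz
    obtain ⟨-, -, x, y, hxy, hlt⟩ := hz
    by_contra hcon
    push Not at hcon
    exact absurd (hT3 (g.eval z) (fun U hU k => hcon U hU k) x y hxy) (not_le.2 hlt)

/-- The number of `z` in `[z₀, z₀ + Z]` for which the curve `F(x,y) = g(z)` has a large integer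
point. -/
theorem result (d : ℕ) (hd : 4 ≤ d) (e : ℕ) (he : 1 ≤ e) (ε : ℝ) (hε : 0 < ε) :
    ∃ K : ℝ, 0 < K ∧ ∀ F : MvPolynomial (Fin 2) ℤ, F.totalDegree = d →
      Squarefree (MvPolynomial.map (Int.castRingHom ℚ)
        (MvPolynomial.homogeneousComponent d F)) →
      ∀ g : ℤ[X], g.natDegree = e → ∀ H : ℕ, (∀ i, |g.coeff i| ≤ H) → ∀ (z₀ : ℤ) (Z : ℕ), 1 ≤ Z →
        ((Bad d F g z₀ Z).ncard : ℝ)
          ≤ K * ((H : ℝ) * (|(z₀ : ℝ)| + Z)) ^ ε * (Z : ℝ) ^ ((Nat.gcd d e : ℝ) / d) ∧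
        ((¬ ∃ V h : ℚ[X], V.natDegree = d ∧ g.map (Int.castRingHom ℚ) = V.comp h) →
          ((Bad d F g z₀ Z).ncard : ℝ)
            ≤ K * ((H : ℝ) * (|(z₀ : ℝ)| + Z)) ^ ε * (Z : ℝ) ^ (1 / 2 : ℝ)) := by
  obtain ⟨K₂, hK₂, hmain₂⟩ := key d e 2 hd he le_rfl ε hε
  obtain ⟨K₁, hK₁, hmain₁⟩ : ∃ K : ℝ, 0 < K ∧ ∀ F : MvPolynomial (Fin 2) ℤ, F.totalDegree = d →
      Squarefree (MvPolynomial.map (Int.castRingHom ℚ)
        (MvPolynomial.homogeneousComponent d F)) →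
      ∀ g : ℤ[X], g.natDegree = e → ∀ H : ℕ, (∀ i, |g.coeff i| ≤ H) → ∀ (z₀ : ℤ) (Z : ℕ), 1 ≤ Z →
        ((Bad d F g z₀ Z).ncard : ℝ)
          ≤ K * ((H : ℝ) * (|(z₀ : ℝ)| + Z)) ^ ε * (Z : ℝ) ^ ((Nat.gcd d e : ℝ) / d) := by
    have hgpos : 0 < Nat.gcd d e := Nat.gcd_pos_of_pos_left _ (by omega)
    have hle : Nat.gcd d e ≤ d := Nat.gcd_le_left _ (by omega)
    rcases hle.lt_or_eq with hlt | heq
    · -- the exponent is below one
      have hq : 2 ≤ d / Nat.gcd d e := by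
        have h1 : Nat.gcd d e * (d / Nat.gcd d e) = d := Nat.mul_div_cancel' (Nat.gcd_dvd_left _ _)
        by_contra hcon
        have h2 : d / Nat.gcd d e ≤ 1 := by omega
        have h3 : Nat.gcd d e * (d / Nat.gcd d e) ≤ Nat.gcd d e * 1 := Nat.mul_le_mul_left _ h2
        omega
      obtain ⟨K, hK, hmain⟩ := key d e _ hd he hq ε hε
      refine ⟨K, hK, ?_⟩
      intro F hF hsq g hg H hH z₀ Z hZ
      have h1 := hmain F hF hsq g hg z₀ (fun U hU => noSmall_gcd (by omega) he hU (by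
        rw [natDegree_comp, natDegree_X_add_C, mul_one, hg])) H Z hH hZ
      have h2 : 1 / ((d / Nat.gcd d e : ℕ) : ℝ) = (Nat.gcd d e : ℝ) / d := by
        rw [Nat.cast_div (Nat.gcd_dvd_left _ _) (by exact_mod_cast hgpos.ne'), one_div_div]
      rw [h2] at h1
      exact h1
    · -- the trivial bound
      refine ⟨2, by norm_num, ?_⟩
      intro F hF hsq g hg H hH z₀ Z hZ
      have hHR : (1 : ℝ) ≤ H := by exact_mod_cast one_le_height he hg hH
      have hZR : (1 : ℝ) ≤ Z := by exact_mod_cast hZ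
      have hbig : (1 : ℝ) ≤ ((H : ℝ) * (|(z₀ : ℝ)| + Z)) ^ ε := by
        apply Real.one_le_rpow _ hε.le
        nlinarith [abs_nonneg (z₀ : ℝ)]
      have h1 : (Bad d F g z₀ Z).ncard ≤ Z + 1 := by
        have hsub : Bad d F g z₀ Z ⊆ ((Finset.Icc z₀ (z₀ + Z) : Finset ℤ) : Set ℤ) := by
          intro z hz
          rw [Finset.coe_Icc]
          exact ⟨hz.1, hz.2.1⟩
        have := Set.ncard_le_ncard hsub (Finset.finite_toSet _)
        rw [Set.ncard_coe_finset, Int.card_Icc] at this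
        omega
      have h2 : ((Bad d F g z₀ Z).ncard : ℝ) ≤ Z + 1 := by exact_mod_cast h1
      have hd0 : (d : ℝ) ≠ 0 := by
        have : 0 < d := by omega
        exact_mod_cast this.ne'
      rw [heq, div_self hd0, Real.rpow_one]
      calc ((Bad d F g z₀ Z).ncard : ℝ) ≤ Z + 1 := h2
        _ ≤ 2 * 1 * Z := by linarith
        _ ≤ 2 * ((H : ℝ) * (|(z₀ : ℝ)| + Z)) ^ ε * Z := by
          apply mul_le_mul_of_nonneg_right _ (by positivity)
          linarith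
  refine ⟨K₁ + K₂, by positivity, ?_⟩
  intro F hF hsq g hg H hH z₀ Z hZ
  constructor
  · refine (hmain₁ F hF hsq g hg H hH z₀ Z hZ).trans ?_
    apply mul_le_mul_of_nonneg_right _ (by positivity)
    apply mul_le_mul_of_nonneg_right _ (by positivity)
    linarith
  · intro hcomp
    have h1 := hmain₂ F hF hsq g hg z₀ (fun U hU => noSmall_two hU (comp_shift z₀ hcomp))
      H Z hH hZ
    rw [Nat.cast_two] at h1
    refine h1.trans ?_
    apply mul_le_mul_of_nonneg_right _ (by positivity)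
    apply mul_le_mul_of_nonneg_right _ (by positivity)
    linarith

end Pool.Agent.Results.MP_2d259b_nt.FibresAtPolynomialValues
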