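import Pool.Agent.H56.MD.Sep
import Pool.Agent.H56.MD.Power
import Pool.Graph.R_seed8.Results.MP_2d259b_nt.FibresOffPolynomialValues
import Pool.Graph.R_seed8.Results.MP_2d259b_nt.FewExceptionalCurves

/-!
# Explicit bounds for the integer points on the curves `F(x, y) = t`: arbitrary sets of `t`, sums of the elements of two
# arbitrary sets, and integers with missing digits

Let `d ≥ 4` and let `F ∈ ℤ[x, y]` have degree `d` and a leading form which is squarefree over `ℚ`. It is known (library,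
`FibresOffPolynomialValues`) that the integer points on the curve `F(x, y) = t` are at most
`((d + 1) (h(F) + |t|)) ^ (10 ^ 17 * 1296 ^ d * (d + 1) ^ 15)` for all but about `H ^ (1 / d)` of the integers `|t| ≤ H`.
This says nothing on sets with fewer than `H ^ (1 / d)` members up to `H`. Here uniform theorems for sparse sets are
proved, for all `F`, with constants which do not depend on `F`.

1. For EVERY finite set `T` of integers: the bound fails for at most `K (Δ + 2 M)` of the `t ∈ T`, where `M` is the number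
   of the intervals `[i L, (i + 1) L)` that meet `T`, for any `L ≤ Δ ^ (d - 1)`.
2. For ALL finite sets `P`, `Q` of integers: the bound fails for `t = p + q` for at most `K (#P + #Q √(2 d E #P))` of the pairs,
   if the differences of the elements of `Q` have at most `E` divisors; the elements of `P` can be of any size.
3. Let `A j` be any sets of at least two digits in base `b ≥ 2` and `Ω` the set of the `x < b ^ k` whose digits are in these
   sets (for example: all digits `0` or `1`). For every integer `c` and every `q ≥ 1` the bound fails for `t = c + q x` for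
   at most `C √(τ(q)) #Ω ^ (2 / 3 + ε)` of the `x ∈ Ω`, where `C` depends on `d`, `b` and `ε > 0` only and `τ(q)` is the number of
   the divisors. With windows and families: for all but `C √(τ(q)) (2 Y + 1) #𝓕 #Ω ^ (2 / 3 + ε)` of the `x ∈ Ω` the bound
   is true for ALL `t` with `|t - (c + q x)| ≤ Y` and ALL `F` in the family `𝓕`, for instance for ALL `F` with `h(F) ≤ Y`.
   The set `Ω` can have as few as `2 ^ k` members up to `b ^ k`, it need not be equidistributed in residue classes, and the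
   exponent `2 / 3` does not depend on the digit sets, on `b` and on `d`.

The exceptional `t` are values of boundedly many polynomials `U` of degree `d` (library). The new part: in `1` the
leading coefficient of `U(k + 1) - U(k)` is bounded by its values at separated points; in `2` and `3` the equation
`U(k) - U(l) = m` has at most `2 (d - 1) τ(m)` solutions, and the inequality of Cauchy and Schwarz is used.
-/

set_option autoImplicit false

namespace Pool.Agent.Results.MP_2d259b_nt.MissingDigitFibres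

open Finset

/-- `h(F)`: the sum of the absolute values of the coefficients -/
def len (F : MvPolynomial (Fin 2) ℤ) : ℕ := ∑ m ∈ F.support, (F.coeff m).natAbs

/-- `F` has degree `d` and its leading form is squarefree over `ℚ` -/
def Regular (d : ℕ) (F : MvPolynomial (Fin 2) ℤ) : Prop :=
  F.totalDegree = d ∧
    Squarefree (MvPolynomial.map (Int.castRingHom ℚ) (MvPolynomial.homogeneousComponent d F))

/-- all integer points of the curve `F(x, y) = t` are at most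
`((d + 1) (h(F) + |t|)) ^ (10 ^ 17 * 1296 ^ d * (d + 1) ^ 15)` -/
def Bounded (d : ℕ) (F : MvPolynomial (Fin 2) ℤ) (t : ℤ) : Prop :=
  ∀ x y : ℤ, MvPolynomial.eval ![x, y] F = t →
    max x.natAbs y.natAbs ≤ ((d + 1) * (len F + t.natAbs)) ^ (10 ^ 17 * 1296 ^ d * (d + 1) ^ 15)

/-- the integers `x < b ^ k` whose digits in base `b` are allowed: the digit at `b ^ j` is in `A j` for all `j < k` -/
def withDigits (b k : ℕ) (A : ℕ → Finset ℕ) : Finset ℕ := (range (b ^ k)).filter (fun x => ∀ j < k, x / b ^ j % b ∈ A j)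

lemma exceptional (d : ℕ) (hd : 4 ≤ d) (F : MvPolynomial (Fin 2) ℤ) (hF : Regular d F) :
    ∃ S : Finset (Polynomial ℤ), S.card ≤ 10 ^ 9 * 36 ^ d * (d + 1) ^ 8 ∧
      (∀ U ∈ S, U.natDegree = d ∨ U.natDegree = 0) ∧ ∀ t : ℤ, ¬ Bounded d F t → ∃ U ∈ S, ∃ k : ℤ, U.eval k = t := by
  obtain ⟨⟨S, h1, h2, h3⟩, -⟩ := FibresOffPolynomialValues.result d hd F hF.1 hF.2
  refine ⟨S, h1, h2, fun t ht => ?_⟩
  by_contra hcon
  push Not at hcon
  exact ht (h3 t hcon)

open Classical in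
lemma part1 (d : ℕ) (hd : 4 ≤ d) (F : MvPolynomial (Fin 2) ℤ) (hF : Regular d F) (T : Finset ℤ) (L Δ : ℕ)
    (hL : 1 ≤ L) (hLΔ : L ≤ Δ ^ (d - 1)) :
    (T.filter (fun t => ¬ Bounded d F t)).card ≤
      10 ^ 9 * 36 ^ d * (d + 1) ^ 9 * (Δ + 2 * (T.image (fun t => t / (L : ℤ))).card) := by
  obtain ⟨S, h1, h2, h3⟩ := exceptional d hd F hF
  obtain ⟨N, hN⟩ : ∃ N : ℕ, N = (T.image (fun t => t / (L : ℤ))).card := ⟨_, rfl⟩
  rw [← hN]
  have hΔ : 1 ≤ Δ := by
    rcases Nat.eq_zero_or_pos Δ with h | h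
    · rw [h, zero_pow (by omega)] at hLΔ
      omega
    · exact h
  have hsub : T.filter (fun t => ¬ Bounded d F t) ⊆ S.biUnion (fun U => T.filter (fun t => ∃ k : ℤ, U.eval k = t)) := by
    intro t ht
    rw [mem_filter] at ht
    obtain ⟨U, hU, h4⟩ := h3 t ht.2
    rw [mem_biUnion]
    exact ⟨U, hU, mem_filter.2 ⟨ht.1, h4⟩⟩
  have hone : ∀ U ∈ S, (T.filter (fun t => ∃ k : ℤ, U.eval k = t)).card ≤ (d + 1) * (Δ + 2 * N) := by
    intro U hU
    rcases h2 U hU with h | h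
    · have h5 := Pool.Agent.H56.MD.values_in (by omega) U h T Δ L hL hLΔ
      rw [← hN] at h5
      refine (le_of_eq ?_).trans (h5.trans ?_)
      · congr
      · have h6 : (d - 1) * Δ ≤ (d + 1) * Δ := Nat.mul_le_mul_right _ (by omega)
        have h7 : 2 * d * N ≤ 2 * (d + 1) * N := Nat.mul_le_mul_right _ (by omega)
        calc _ ≤ (d + 1) * Δ + 2 * (d + 1) * N := add_le_add h6 h7
          _ = _ := by ring
    · have h5 : (T.filter (fun t => ∃ k : ℤ, U.eval k = t)).card ≤ 1 := by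
        rw [card_le_one]
        intro a ha a' ha'
        rw [mem_filter] at ha ha'
        obtain ⟨-, k, hk⟩ := ha
        obtain ⟨-, k', hk'⟩ := ha'
        rw [Polynomial.eq_C_of_natDegree_eq_zero h, Polynomial.eval_C] at hk hk'
        exact hk.symm.trans hk'
      refine h5.trans ?_
      calc 1 = 1 * 1 := by norm_num
        _ ≤ (d + 1) * (Δ + 2 * N) := Nat.mul_le_mul (by omega) (by omega)
  calc _ ≤ (S.biUnion (fun U => T.filter (fun t => ∃ k : ℤ, U.eval k = t))).card := card_le_card hsub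
    _ ≤ ∑ U ∈ S, (T.filter (fun t => ∃ k : ℤ, U.eval k = t)).card := card_biUnion_le
    _ ≤ S.card * ((d + 1) * (Δ + 2 * N)) := by
        refine (sum_le_sum hone).trans ?_
        rw [sum_const, smul_eq_mul]
    _ ≤ (10 ^ 9 * 36 ^ d * (d + 1) ^ 8) * ((d + 1) * (Δ + 2 * N)) := Nat.mul_le_mul_right _ h1
    _ = _ := by ring

open Classical in
lemma part2 (d : ℕ) (hd : 4 ≤ d) (F : MvPolynomial (Fin 2) ℤ) (hF : Regular d F) (P Q : Finset ℤ) (E : ℕ)
    (hE : ∀ a ∈ Q, ∀ b ∈ Q, a ≠ b → (a - b).natAbs.divisors.card ≤ E) :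
    (((P ×ˢ Q).filter (fun x => ¬ Bounded d F (x.1 + x.2))).card : ℝ) ≤
      10 ^ 9 * 36 ^ d * (d + 1) ^ 8 * (P.card + Q.card * √(2 * d * E * P.card)) := by
  obtain ⟨S, h1, h2, h3⟩ := exceptional d hd F hF
  obtain ⟨R, hR⟩ : ∃ R : ℝ, R = P.card + Q.card * √(2 * d * E * P.card) := ⟨_, rfl⟩
  have hR0 : 0 ≤ R := by rw [hR]; positivity
  rw [← hR]
  have hsub : (P ×ˢ Q).filter (fun x => ¬ Bounded d F (x.1 + x.2)) ⊆
      S.biUnion (fun U => (P ×ˢ Q).filter (fun x => ∃ k : ℤ, U.eval k = x.1 + x.2)) := by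
    intro x hx
    rw [mem_filter] at hx
    obtain ⟨U, hU, h4⟩ := h3 _ hx.2
    rw [mem_biUnion]
    exact ⟨U, hU, mem_filter.2 ⟨hx.1, h4⟩⟩
  have h5 : ((P ×ˢ Q).filter (fun x => ¬ Bounded d F (x.1 + x.2))).card ≤
      ∑ U ∈ S, ((P ×ˢ Q).filter (fun x => ∃ k : ℤ, U.eval k = x.1 + x.2)).card :=
    (card_le_card hsub).trans card_biUnion_le
  have h6 : (((P ×ˢ Q).filter (fun x => ¬ Bounded d F (x.1 + x.2))).card : ℝ) ≤
      ∑ U ∈ S, (((P ×ˢ Q).filter (fun x => ∃ k : ℤ, U.eval k = x.1 + x.2)).card : ℝ) := by exact_mod_cast h5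
  refine h6.trans ((sum_le_sum fun U hU => ?_).trans (?_ : ∑ _U ∈ S, R ≤ _))
  · rw [hR]
    exact Pool.Agent.H56.MD.values_sum (by omega) U (h2 U hU) P Q E hE (fun t => ∃ k : ℤ, U.eval k = t) (fun _ h => h)
  · rw [sum_const, nsmul_eq_mul]
    apply mul_le_mul_of_nonneg_right _ hR0
    exact_mod_cast h1

lemma coeff_le_len (F : MvPolynomial (Fin 2) ℤ) (m : Fin 2 →₀ ℕ) : (F.coeff m).natAbs ≤ len F := by
  by_cases h : m ∈ F.support
  · exact Finset.single_le_sum (f := fun m => (F.coeff m).natAbs) (fun _ _ => Nat.zero_le _) h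
  · rw [MvPolynomial.notMem_support_iff.1 h]
    simp

/-- there are at most `(2 Y + 1) ^ ((d + 1) (d + 2) / 2)` polynomials with `h(F) ≤ Y` -/
lemma fewF (d : ℕ) (hd : 4 ≤ d) (Y : ℕ) : ∃ 𝓕 : Finset (MvPolynomial (Fin 2) ℤ),
    𝓕.card ≤ (2 * Y + 1) ^ ((d + 1) * (d + 2) / 2) ∧ (∀ F ∈ 𝓕, Regular d F) ∧
      ∀ F, Regular d F → len F ≤ Y → F ∈ 𝓕 := by
  classical
  have h1 := (FewExceptionalCurves.result d hd Y).1
  have hfin : {F : MvPolynomial (Fin 2) ℤ | F.totalDegree ≤ d ∧ ∀ m, |F.coeff m| ≤ (Y : ℤ)}.Finite := by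
    apply Set.finite_of_ncard_ne_zero
    rw [h1]
    positivity
  refine ⟨hfin.toFinset.filter (fun F => Regular d F), ?_, fun F hF => (mem_filter.1 hF).2, fun F h2 h3 => ?_⟩
  · refine (card_filter_le _ _).trans ?_
    rw [← Set.ncard_eq_toFinset_card _ hfin, h1]
  · rw [mem_filter, Set.Finite.mem_toFinset]
    refine ⟨⟨h2.1.le, fun m => ?_⟩, h2⟩
    have h4 := (coeff_le_len F m).trans h3
    rw [Int.abs_eq_natAbs]
    exact_mod_cast h4

open Classical in
lemma part3 (d : ℕ) (hd : 4 ≤ d) (b : ℕ) (hb : 2 ≤ b) (ε : ℝ) (hε : 0 < ε) : ∃ C : ℝ, 0 ≤ C ∧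
    ∀ (k : ℕ) (A : ℕ → Finset ℕ), (∀ j < k, 1 < (A j ∩ range b).card) → ∀ (q : ℕ) (c : ℤ), 1 ≤ q →
      ∀ (Y : ℕ) (𝓕 : Finset (MvPolynomial (Fin 2) ℤ)), (∀ F ∈ 𝓕, Regular d F) →
      (((withDigits b k A).filter (fun x : ℕ => ∃ t : ℤ, |t - (c + q * (x : ℤ))| ≤ Y ∧ ∃ F ∈ 𝓕, ¬ Bounded d F t)).card : ℝ) ≤
        C * √(q.divisors.card) * (2 * Y + 1) * 𝓕.card * ((withDigits b k A).card : ℝ) ^ (2 / 3 + ε) := by
  obtain ⟨C, hC0, hC⟩ := Pool.Agent.H56.MD.digits_values d b (by omega) hb ε hε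
  obtain ⟨K, hK⟩ : ∃ K : ℕ, K = 10 ^ 9 * 36 ^ d * (d + 1) ^ 8 := ⟨_, rfl⟩
  refine ⟨K * C, by positivity, ?_⟩
  intro k A hA q c hq Y 𝓕 hF2
  have hS : ∀ F : MvPolynomial (Fin 2) ℤ, ∃ S : Finset (Polynomial ℤ), S.card ≤ K ∧
      (∀ U ∈ S, U.natDegree = d ∨ U.natDegree = 0) ∧ (Regular d F → ∀ t : ℤ, ¬ Bounded d F t → ∃ U ∈ S, ∃ k : ℤ, U.eval k = t) := by
    intro F
    by_cases h : Regular d F
    · obtain ⟨S, h1, h2, h3⟩ := exceptional d hd F h
      exact ⟨S, by rw [hK]; exact h1, h2, fun _ => h3⟩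
    · exact ⟨∅, by simp, by simp, fun h' => absurd h' h⟩
  choose S hS1 hS2 hS3 using hS
  obtain ⟨W, hW⟩ : ∃ W : ℤ → Polynomial ℤ → Finset ℕ, W = fun (h : ℤ) (U : Polynomial ℤ) =>
    (withDigits b k A).filter (fun x : ℕ => ∃ l : ℤ, U.eval l = c + h + q * x) := ⟨_, rfl⟩
  obtain ⟨R, hR⟩ : ∃ R : ℝ, R = C * √(q.divisors.card) * ((withDigits b k A).card : ℝ) ^ (2 / 3 + ε) := ⟨_, rfl⟩
  have hR0 : 0 ≤ R := by rw [hR]; positivity
  have hWc : ∀ (h : ℤ) (U : Polynomial ℤ), U.natDegree = d ∨ U.natDegree = 0 → ((W h U).card : ℝ) ≤ R := by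
    intro h U hU
    rw [hW, hR]
    exact hC U hU k A hA q (c + h) hq _ (fun x hx => hx)
  obtain ⟨B, hB⟩ : ∃ B : Finset ℕ, B = (withDigits b k A).filter (fun x : ℕ => ∃ t : ℤ,
    |t - (c + q * (x : ℤ))| ≤ Y ∧ ∃ F ∈ 𝓕, ¬ Bounded d F t) := ⟨_, rfl⟩
  rw [← hB]
  have hsub : B ⊆ (Icc (-(Y : ℤ)) Y).biUnion (fun h => 𝓕.biUnion (fun F => (S F).biUnion (fun U => W h U))) := by
    intro x hx
    rw [hB, mem_filter] at hx
    obtain ⟨hx1, t, h1, F, h2, h4⟩ := hx
    obtain ⟨U, hU, l, hl⟩ := hS3 F (hF2 F h2) t h4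
    rw [mem_biUnion]
    refine ⟨t - (c + q * x), by rw [mem_Icc]; exact abs_le.1 h1, ?_⟩
    rw [mem_biUnion]
    refine ⟨F, h2, ?_⟩
    rw [mem_biUnion]
    refine ⟨U, hU, ?_⟩
    rw [hW, mem_filter]
    refine ⟨hx1, l, ?_⟩
    rw [hl]
    ring
  have h1 : B.card ≤ ∑ h ∈ Icc (-(Y : ℤ)) Y, ∑ F ∈ 𝓕, ∑ U ∈ S F, (W h U).card := by
    refine (card_le_card hsub).trans (card_biUnion_le.trans (sum_le_sum fun h _ => ?_))
    exact card_biUnion_le.trans (sum_le_sum fun F _ => card_biUnion_le)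
  have h2 : (B.card : ℝ) ≤ ∑ h ∈ Icc (-(Y : ℤ)) Y, ∑ F ∈ 𝓕, ∑ U ∈ S F, ((W h U).card : ℝ) := by exact_mod_cast h1
  have h3 : ∀ h ∈ Icc (-(Y : ℤ)) Y, ∑ F ∈ 𝓕, ∑ U ∈ S F, ((W h U).card : ℝ) ≤ 𝓕.card * (K * R) := by
    intro h _
    have h4 : ∀ F ∈ 𝓕, ∑ U ∈ S F, ((W h U).card : ℝ) ≤ K * R := by
      intro F _
      calc ∑ U ∈ S F, ((W h U).card : ℝ) ≤ ∑ _U ∈ S F, R := sum_le_sum fun U hU => hWc h U (hS2 F U hU)
        _ = (S F).card * R := by rw [sum_const, nsmul_eq_mul]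
        _ ≤ K * R := mul_le_mul_of_nonneg_right (by exact_mod_cast hS1 F) hR0
    calc _ ≤ ∑ _F ∈ 𝓕, K * R := sum_le_sum h4
      _ = 𝓕.card * (K * R) := by rw [sum_const, nsmul_eq_mul]
  have h5 : (Icc (-(Y : ℤ)) Y).card = 2 * Y + 1 := by
    rw [Int.card_Icc]
    omega
  calc (B.card : ℝ) ≤ ∑ _h ∈ Icc (-(Y : ℤ)) Y, (𝓕.card * (K * R) : ℝ) := h2.trans (sum_le_sum h3)
    _ = (2 * Y + 1 : ℕ) * (𝓕.card * (K * R)) := by rw [sum_const, h5, nsmul_eq_mul]
    _ = K * C * √(q.divisors.card) * (2 * Y + 1) * 𝓕.card * ((withDigits b k A).card : ℝ) ^ (2 / 3 + ε) := by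
        rw [hR]
        push_cast
        ring

open Classical in
/-- **The theorem.** Let `d ≥ 4`. `F` is `Regular` if it has degree `d` and a leading form squarefree over `ℚ`; `Bounded d F t`
is the explicit bound for the integer points of the curve `F(x, y) = t`.

(1) For every regular `F`, every finite set `T` of integers and all `1 ≤ L ≤ Δ ^ (d - 1)` the number of the `t ∈ T` for which the
bound fails is at most `10 ^ 9 36 ^ d (d + 1) ^ 9 (Δ + 2 M)`, `M` the number of the `⌊t / L⌋`, `t ∈ T`.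

(2) For every regular `F` and all finite sets `P`, `Q` of integers such that the differences of different elements of `Q` have at
most `E` divisors, the number of the pairs `(p, q)` such that the bound fails for `t = p + q` is at most
`10 ^ 9 36 ^ d (d + 1) ^ 8 (#P + #Q √(2 d E #P))`.

(3) For `b ≥ 2` and `ε > 0` there is `C` such that for all `k` and all sets `A j`, `j < k`, of digits, with at least two elements
below `b`, all `q ≥ 1`, `c`, `Y` and all finite sets `𝓕` of regular polynomials, of any height: for all `x` in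
`Ω = withDigits b k A` but at most `C √(τ(q)) (2 Y + 1) #𝓕 #Ω ^ (2 / 3 + ε)`, ALL `t` with `|t - (c + q x)| ≤ Y` and ALL
`F ∈ 𝓕` satisfy the bound.

(4) The same for ALL regular `F` with `h(F) ≤ Y`, with `(2 Y + 1) ^ ((d + 1) (d + 2) / 2 + 1)` instead of `(2 Y + 1) #𝓕`. -/
theorem result (d : ℕ) (hd : 4 ≤ d) :
    (∀ F : MvPolynomial (Fin 2) ℤ, Regular d F → ∀ (T : Finset ℤ) (L Δ : ℕ), 1 ≤ L → L ≤ Δ ^ (d - 1) →
      (T.filter (fun t => ¬ Bounded d F t)).card ≤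
        10 ^ 9 * 36 ^ d * (d + 1) ^ 9 * (Δ + 2 * (T.image (fun t => t / (L : ℤ))).card)) ∧
    (∀ F : MvPolynomial (Fin 2) ℤ, Regular d F → ∀ (P Q : Finset ℤ) (E : ℕ),
      (∀ a ∈ Q, ∀ b ∈ Q, a ≠ b → (a - b).natAbs.divisors.card ≤ E) →
      (((P ×ˢ Q).filter (fun x => ¬ Bounded d F (x.1 + x.2))).card : ℝ) ≤
        10 ^ 9 * 36 ^ d * (d + 1) ^ 8 * (P.card + Q.card * √(2 * d * E * P.card))) ∧
    ∀ b : ℕ, 2 ≤ b → ∀ ε : ℝ, 0 < ε → ∃ C : ℝ, 0 ≤ C ∧
      ∀ (k : ℕ) (A : ℕ → Finset ℕ), (∀ j < k, 1 < (A j ∩ range b).card) → ∀ (q : ℕ) (c : ℤ), 1 ≤ q → ∀ Y : ℕ,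
        (∀ 𝓕 : Finset (MvPolynomial (Fin 2) ℤ), (∀ F ∈ 𝓕, Regular d F) →
          (((withDigits b k A).filter (fun x : ℕ => ∃ t : ℤ, |t - (c + q * (x : ℤ))| ≤ Y ∧
            ∃ F ∈ 𝓕, ¬ Bounded d F t)).card : ℝ) ≤
            C * √(q.divisors.card) * (2 * Y + 1) * 𝓕.card * ((withDigits b k A).card : ℝ) ^ (2 / 3 + ε)) ∧
        (((withDigits b k A).filter (fun x : ℕ => ∃ t : ℤ, |t - (c + q * (x : ℤ))| ≤ Y ∧
          ∃ F : MvPolynomial (Fin 2) ℤ, Regular d F ∧ len F ≤ Y ∧ ¬ Bounded d F t)).card : ℝ) ≤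
          C * √(q.divisors.card) * (2 * Y + 1) ^ ((d + 1) * (d + 2) / 2 + 1) *
            ((withDigits b k A).card : ℝ) ^ (2 / 3 + ε) := by
  refine ⟨fun F hF T L Δ hL hLΔ => part1 d hd F hF T L Δ hL hLΔ, fun F hF P Q E hE => part2 d hd F hF P Q E hE, ?_⟩
  intro b hb ε hε
  obtain ⟨C, hC0, hC⟩ := part3 d hd b hb ε hε
  refine ⟨C, hC0, fun k A hA q c hq Y => ⟨fun 𝓕 hF => hC k A hA q c hq Y 𝓕 hF, ?_⟩⟩
  obtain ⟨𝓕, hF1, hF2, hF3⟩ := fewF d hd Y
  have h1 : (((withDigits b k A).filter (fun x : ℕ => ∃ t : ℤ, |t - (c + q * (x : ℤ))| ≤ Y ∧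
      ∃ F : MvPolynomial (Fin 2) ℤ, Regular d F ∧ len F ≤ Y ∧ ¬ Bounded d F t)).card : ℝ) ≤
      ((withDigits b k A).filter (fun x : ℕ => ∃ t : ℤ, |t - (c + q * (x : ℤ))| ≤ Y ∧
        ∃ F ∈ 𝓕, ¬ Bounded d F t)).card := by
    have : ((withDigits b k A).filter (fun x : ℕ => ∃ t : ℤ, |t - (c + q * (x : ℤ))| ≤ Y ∧
      ∃ F : MvPolynomial (Fin 2) ℤ, Regular d F ∧ len F ≤ Y ∧ ¬ Bounded d F t)).card ≤
      ((withDigits b k A).filter (fun x : ℕ => ∃ t : ℤ, |t - (c + q * (x : ℤ))| ≤ Y ∧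
        ∃ F ∈ 𝓕, ¬ Bounded d F t)).card := by
      apply card_le_card
      intro x hx
      rw [mem_filter] at hx ⊢
      obtain ⟨hx1, t, h1, F, h2, h3, h4⟩ := hx
      exact ⟨hx1, t, h1, F, hF3 F h2 h3, h4⟩
    exact_mod_cast this
  refine h1.trans ((hC k A hA q c hq Y 𝓕 hF2).trans ?_)
  have h2 : (𝓕.card : ℝ) ≤ (2 * Y + 1) ^ ((d + 1) * (d + 2) / 2) := by exact_mod_cast hF1
  have hW0 : (0 : ℝ) ≤ ((withDigits b k A).card : ℝ) ^ (2 / 3 + ε) := by positivity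
  calc C * √(q.divisors.card) * (2 * Y + 1) * 𝓕.card * ((withDigits b k A).card : ℝ) ^ (2 / 3 + ε)
      ≤ C * √(q.divisors.card) * (2 * Y + 1) * (2 * Y + 1) ^ ((d + 1) * (d + 2) / 2) *
        ((withDigits b k A).card : ℝ) ^ (2 / 3 + ε) := by
        apply mul_le_mul_of_nonneg_right _ hW0
        exact mul_le_mul_of_nonneg_left h2 (by positivity)
    _ = _ := by rw [pow_succ]; ring

end Pool.Agent.Results.MP_2d259b_nt.MissingDigitFibres
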