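import Pool.Agent.H73.GP.C
import Pool.Agent.H73.GP.E

/-!
# Effective bounds for the integer points on all the curves `F(x, y) = t`, `t` in almost every residue class

Let `F ∈ ℤ[x, y]` have degree `d ≥ 4` and a leading form `F_d` which is squarefree over `ℚ`.  We consider the explicit
inequality `max (|x|, |y|) ≤ ((d + 1) (h (F) + |t|)) ^ C(d)` for the integer points on the curves `F (x, y) = t`.  For one
`F` it holds for all but finitely many `t`, but the proof (Thue, Siegel, Schmidt) gives no bound for the exceptional `t`,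
and so no information on any given family of curves.  We prove effective results, uniform in `F`, on the residue
classes of the exceptional `t`.

A prime `p ≥ 16 d ^ 8` is good for `F` if `d` and `p - 1` are not coprime (no condition for even `d`) and `F_d` has no zero
modulo `p`.  If `F_d` is irreducible over `ℚ` (this is the main case: otherwise the exceptional `t` are among the at most
`2 ^ d` integers with a reducible fibre), then the good primes have positive lower density.

**Theorem.**  Let `M` be the product of the primes of a finite set `P` of good primes.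
1. For all but at most `B(d) (1 - 1 / (2 d)) ^ |P| M` of the residue classes modulo `M` the inequality holds for ALL
   integers `t` of the class.
2. If the primes are at most `Q` and `q` is prime to `M`, then this is true for the classes of all but at most
   `24 d² B(d) (H + Q²) / |P|` of any `H` consecutive terms of a progression `X + q n`; this is `O (√H log H)`
   for `Q = √H`.
3. It is true for the classes of all the integers `j` with `|j - n W(n) - V(n)| ≤ J`, for all but at most
   `56 d² B(d) (2 J + 1) N / |P|` of the integers `n` of any interval of length `N`, if `N ≥ p ^ 8` for the primes of `P`,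
   where `n W(n) + V(n)` is an exponentially sparse sequence such as `n 2 ^ n + 1` or `n 2 ^ (n²) 3 ^ n + F(n³) 5 ^ n - 7`.
Here `B(d) = 10 ^ 9 36 ^ d (d + 1) ^ 8`; there are no unspecified constants.

Proof.  By the starting file the exceptional `t` are values of at most `B(d)` polynomials `U`, the restrictions of `F` to
lines (or constants).  The leading coefficient of `U` is a value of `F_d` at a primitive point, so it is not divisible by the
good primes.  By the Weil bound for plane curves, applied to the factor of `(U(x) - U(y)) / (x - y)` through the point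
`(ζ : 1 : 0)` at infinity, `ζ` a root of unity in the field with `p` elements, `U` takes at most `(1 - 1 / (2 d)) p` values
modulo a good prime `p`.  The three parts follow by the Chinese remainder theorem, by the large sieve, and by a second
moment on the progressions with difference `p² - 1`, on which the sequence is linear modulo `p`.  The good primes are
found by the theorem of Chebotarev: if `r` is the least prime factor of `d`, then the automorphisms which fix the `r`-th roots
of unity act transitively on the zeros of `F_d`, since `r - 1` is prime to `d`, and so one of them has no fixed point.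
-/

set_option autoImplicit false

namespace Pool.Agent.Results.MP_2d259b_nt.ResidueClasses

open Finset

/-- the sum of the absolute values of the coefficients -/
noncomputable def h (F : MvPolynomial (Fin 2) ℤ) : ℕ := ∑ m ∈ F.support, (F.coeff m).natAbs

/-- The integer points on the curve `F (x, y) = t` are bounded by
`((d + 1) (h (F) + |t|)) ^ (10 ^ 17 1296 ^ d (d + 1) ^ 15)`, `d` the degree of `F`. -/
def Bounded (F : MvPolynomial (Fin 2) ℤ) (t : ℤ) : Prop :=
  ∀ x y : ℤ, MvPolynomial.eval ![x, y] F = t →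
    max x.natAbs y.natAbs ≤
      ((F.totalDegree + 1) * (h F + t.natAbs)) ^
        (10 ^ 17 * 1296 ^ F.totalDegree * (F.totalDegree + 1) ^ 15)

/-- The bound holds on the curves `F (x, y) = t` for all the integers `t` congruent to `c` modulo `M`. -/
def ClassBounded (F : MvPolynomial (Fin 2) ℤ) (M : ℕ) (c : ℤ) : Prop :=
  ∀ t : ℤ, (M : ℤ) ∣ t - c → Bounded F t

/-- The prime `p ≥ 16 d ^ 8` is good for `F`, `d` the degree of `F`: the numbers `d` and `p - 1` are not coprime and
the leading form of `F` has no nontrivial zero modulo `p`. -/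
def Good (F : MvPolynomial (Fin 2) ℤ) (p : ℕ) : Prop :=
  p.Prime ∧ 16 * F.totalDegree ^ 8 ≤ p ∧ Nat.gcd F.totalDegree (p - 1) ≠ 1 ∧
    ∀ x y : ℤ, (p : ℤ) ∣ MvPolynomial.eval ![x, y] (MvPolynomial.homogeneousComponent F.totalDegree F) →
      (p : ℤ) ∣ x ∧ (p : ℤ) ∣ y

/-- The polynomials with natural coefficients, as functions. -/
inductive Exponent : (ℕ → ℕ) → Prop
  | id : Exponent fun n => n
  | const (c : ℕ) : Exponent fun _ => c
  | add (e f : ℕ → ℕ) : Exponent e → Exponent f → Exponent fun n => e n + f n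
  | mul (e f : ℕ → ℕ) : Exponent e → Exponent f → Exponent fun n => e n * f n

/-- `PowerProduct D W`: `W` is a product of a constant and of powers `b ^ e(n)`, `e` a polynomial; `D` is the
product of the constant and of the numbers `b`. -/
inductive PowerProduct : ℤ → (ℕ → ℤ) → Prop
  | const (c : ℤ) : PowerProduct c fun _ => c
  | pow (b : ℤ) (e : ℕ → ℕ) : Exponent e → PowerProduct b fun n => b ^ e n
  | mul (D D' : ℤ) (W W' : ℕ → ℤ) : PowerProduct D W → PowerProduct D' W' →
      PowerProduct (D * D') fun n => W n * W' n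

/-- `ExpSeq D V`: the sequence `V` is built from constants, powers `d ^ n` and binary linear recurrences by
sums, products and the substitution of polynomials for `n`; `D` is the product of the numbers `d` and
`Q (P² + 4 Q)` which are used. -/
inductive ExpSeq : ℤ → (ℕ → ℤ) → Prop
  | const (c : ℤ) : ExpSeq 1 fun _ => c
  | pow (d : ℤ) : ExpSeq d fun n => d ^ n
  | recurrence (P Q : ℤ) (V : ℕ → ℤ) (h : ∀ n, V (n + 2) = P * V (n + 1) + Q * V n) :
      ExpSeq (Q * (P ^ 2 + 4 * Q)) V
  | add (D D' : ℤ) (V V' : ℕ → ℤ) : ExpSeq D V → ExpSeq D' V' → ExpSeq (D * D') fun n => V n + V' n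
  | mul (D D' : ℤ) (V V' : ℕ → ℤ) : ExpSeq D V → ExpSeq D' V' → ExpSeq (D * D') fun n => V n * V' n
  | subst (D : ℤ) (V : ℕ → ℤ) (e : ℕ → ℕ) : ExpSeq D V → Exponent e → ExpSeq D fun n => V (e n)

section

open Pool.Agent.H73.CU Pool.Agent.H73.EF

theorem Exponent.steady {e : ℕ → ℕ} (h : Exponent e) : Steady e := by
  induction h with
  | id => exact steady_id
  | const c => exact steady_const c
  | add e f _ _ h1 h2 => exact h1.add h2
  | mul e f _ _ h1 h2 => exact h1.mul h2

theorem ExpSeq.per2 {D : ℤ} {V : ℕ → ℤ} (h : ExpSeq D V) : Per2 D V := by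
  induction h with
  | const c => exact per2_const c
  | pow d => exact per2_pow d
  | recurrence P Q V h => exact per2_rec P Q V h
  | add D D' V V' _ _ h1 h2 => exact (h1.mono (dvd_mul_right _ _)).add (h2.mono (dvd_mul_left _ _))
  | mul D D' V V' _ _ h1 h2 => exact (h1.mono (dvd_mul_right _ _)).mul (h2.mono (dvd_mul_left _ _))
  | subst D V e _ he h1 => exact h1.comp he.steady

theorem PowerProduct.per2 {D : ℤ} {W : ℕ → ℤ} (h : PowerProduct D W) : Per2 D W ∧
    ∀ p : ℕ, p.Prime → ¬ (p : ℤ) ∣ D → ∀ n, ¬ (p : ℤ) ∣ W n := by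
  induction h with
  | const c => exact ⟨(per2_const c).mono (one_dvd _), fun p _ h n => h⟩
  | pow b e he =>
    refine ⟨(per2_pow b).comp he.steady, fun p hp h n hn => h ?_⟩
    exact (Nat.prime_iff_prime_int.1 hp).dvd_of_dvd_pow hn
  | mul D D' W W' _ _ h1 h2 =>
    refine ⟨(h1.1.mono (dvd_mul_right _ _)).mul (h2.1.mono (dvd_mul_left _ _)), ?_⟩
    intro p hp h n hn
    rcases (Nat.prime_iff_prime_int.1 hp).dvd_or_dvd hn with h3 | h3
    · exact h1.2 p hp (fun h4 => h (h4.mul_right _)) n h3
    · exact h2.2 p hp (fun h4 => h (h4.mul_left _)) n h3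

end

open Pool.Agent.H73.GP in
/-- the exceptional classes -/
theorem exceptional (d : ℕ) (hd : 4 ≤ d) (F : MvPolynomial (Fin 2) ℤ) (hF : F.totalDegree = d)
    (hsq : Squarefree (MvPolynomial.map (Int.castRingHom ℚ) (MvPolynomial.homogeneousComponent d F))) :
    ∃ S : Finset (Polynomial ℤ), S.card ≤ 10 ^ 9 * 36 ^ d * (d + 1) ^ 8 ∧
      ∀ P : Finset ℕ, (∀ p ∈ P, Good F p) →
        (∀ U ∈ S, (U.natDegree = d ∧ ∀ p ∈ P, ¬ (p : ℤ) ∣ U.leadingCoeff) ∨ U.natDegree = 0) ∧
        ∀ c : ℤ, ¬ ClassBounded F (∏ p ∈ P, p) c → ∃ U ∈ S, ∀ p ∈ P, Val U p (c : ZMod p) := by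
  subst hF
  obtain ⟨S, h1, h2, h3⟩ := main8' F hd hsq
  refine ⟨S, h1.trans (Pool.Agent.H674R3.kL_le _), fun P hP => ⟨fun U hU => ?_, fun c hc => ?_⟩⟩
  · rcases h2 U hU with h | h
    · exact Or.inl ⟨h.1, fun p hp => h.2 p (hP p hp).1 (hP p hp).2.2.2⟩
    · exact Or.inr h
  · unfold ClassBounded at hc
    push Not at hc
    obtain ⟨t, ht, hb⟩ := hc
    have hval : ∃ U ∈ S, ∃ k : ℤ, U.eval k = t := by
      by_contra hcon
      push Not at hcon
      apply hb
      intro x y hxy
      exact h3 t hcon x y hxy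
    obtain ⟨U, hU, k, hk⟩ := hval
    refine ⟨U, hU, fun p hp => ⟨k, ?_⟩⟩
    rw [hk, ← sub_eq_zero, ← Int.cast_sub, ZMod.intCast_zmod_eq_zero_iff_dvd]
    refine dvd_trans ?_ ht
    exact_mod_cast dvd_prod_of_mem (fun p : ℕ => p) hp

open Classical in
/-- **Effective bounds for the integer points on all the curves `F (x, y) = t`, `t` in almost every residue class.** -/
theorem result (d : ℕ) (hd : 4 ≤ d) (F : MvPolynomial (Fin 2) ℤ) (hF : F.totalDegree = d)
    (hsq : Squarefree (MvPolynomial.map (Int.castRingHom ℚ) (MvPolynomial.homogeneousComponent d F))) :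
    (∀ P : Finset ℕ, (∀ p ∈ P, Good F p) →
      -- residue classes
      ((((range (∏ p ∈ P, p)).filter fun c : ℕ => ¬ ClassBounded F (∏ p ∈ P, p) c).card : ℝ) ≤
        10 ^ 9 * 36 ^ d * (d + 1) ^ 8 * (1 - 1 / (2 * d)) ^ P.card * ((∏ p ∈ P, p : ℕ) : ℝ)) ∧
      -- intervals and arithmetic progressions
      (∀ Q H : ℕ, (∀ p ∈ P, p ≤ Q) → ∀ X q : ℤ, (∀ p ∈ P, ¬ (p : ℤ) ∣ q) →
        (((Icc 1 H).filter fun n : ℕ => ¬ ClassBounded F (∏ p ∈ P, p) (X + q * n)).card : ℝ) * P.card ≤
          10 ^ 9 * 36 ^ d * (d + 1) ^ 8 * (24 * d ^ 2 * (H + Q ^ 2))) ∧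
      -- exponentially sparse sequences
      (∀ (D D' : ℤ) (W V : ℕ → ℤ), PowerProduct D W → ExpSeq D' V → (∀ p ∈ P, ¬ (p : ℤ) ∣ D * D') →
        ∀ N : ℕ, (∀ p ∈ P, p ^ 8 ≤ N) → ∀ M J : ℕ,
        (((Ico M (M + N)).filter fun n : ℕ =>
            ∃ j : ℤ, |j| ≤ J ∧ ¬ ClassBounded F (∏ p ∈ P, p) (n * W n + V n + j)).card : ℝ) * P.card ≤
          10 ^ 9 * 36 ^ d * (d + 1) ^ 8 * (56 * d ^ 2 * (2 * J + 1) * N))) ∧
    -- many good primes
    (Irreducible (MvPolynomial.map (Int.castRingHom ℚ) (MvPolynomial.homogeneousComponent d F)) →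
      ∃ c : ℝ, 0 < c ∧ ∃ Q₀ : ℕ, ∀ Q : ℕ, Q₀ ≤ Q →
        c * (Q / Real.log Q) ≤ (((range (Q + 1)).filter (Good F)).card : ℝ)) := by
  have hdr : (4 : ℝ) ≤ d := by exact_mod_cast hd
  obtain ⟨S, hS, hexc⟩ := exceptional d hd F hF hsq
  have hSr : (S.card : ℝ) ≤ 10 ^ 9 * 36 ^ d * (d + 1) ^ 8 := by exact_mod_cast hS
  refine ⟨fun P hP => ?_, fun hirr => ?_⟩
  · obtain ⟨hSU, hSc⟩ := hexc P hP
    have hP' : ∀ p ∈ P, p.Prime ∧ 16 * d ^ 8 ≤ p ∧ Nat.gcd d (p - 1) ≠ 1 := by
      intro p hp
      have h1 := hP p hp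
      unfold Good at h1
      rw [hF] at h1
      exact ⟨h1.1, h1.2.1, h1.2.2.1⟩
    refine ⟨?_, ?_, ?_⟩
    · have hcover : ((range (∏ p ∈ P, p)).filter fun c : ℕ => ¬ ClassBounded F (∏ p ∈ P, p) c) ⊆
          S.biUnion fun U => (range (∏ p ∈ P, p)).filter fun c : ℕ =>
            ∀ p ∈ P, Pool.Agent.H73.GP.Val U p (c : ZMod p) := by
        intro c hc
        rw [mem_filter] at hc
        obtain ⟨U, hU, h1⟩ := hSc c hc.2
        rw [mem_biUnion]
        refine ⟨U, hU, mem_filter.2 ⟨hc.1, fun p hp => ?_⟩⟩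
        have h2 := h1 p hp
        rw [Int.cast_natCast] at h2
        exact h2
      have hpos : (0 : ℝ) ≤ 1 - 1 / (2 * d) := by
        have : 1 / (2 * (d : ℝ)) ≤ 1 := by
          rw [div_le_one (by linarith)]
          linarith
        linarith
      calc (((range (∏ p ∈ P, p)).filter fun c : ℕ => ¬ ClassBounded F (∏ p ∈ P, p) c).card : ℝ) ≤
            ((S.biUnion fun U => (range (∏ p ∈ P, p)).filter fun c : ℕ =>
              ∀ p ∈ P, Pool.Agent.H73.GP.Val U p (c : ZMod p)).card : ℝ) := by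
            exact_mod_cast card_le_card hcover
        _ ≤ ∑ U ∈ S, (((range (∏ p ∈ P, p)).filter fun c : ℕ =>
              ∀ p ∈ P, Pool.Agent.H73.GP.Val U p (c : ZMod p)).card : ℝ) := by
            exact_mod_cast card_biUnion_le
        _ ≤ ∑ _U ∈ S, (1 - 1 / (2 * d : ℝ)) ^ P.card * ((∏ p ∈ P, p : ℕ) : ℝ) :=
            sum_le_sum fun U hU => Pool.Agent.H73.GP.count_classes hd hP' (hSU U hU)
        _ = S.card * ((1 - 1 / (2 * d : ℝ)) ^ P.card * ((∏ p ∈ P, p : ℕ) : ℝ)) := by
            rw [sum_const, nsmul_eq_mul]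
        _ ≤ (10 ^ 9 * 36 ^ d * (d + 1) ^ 8) * ((1 - 1 / (2 * d : ℝ)) ^ P.card *
              ((∏ p ∈ P, p : ℕ) : ℝ)) := mul_le_mul_of_nonneg_right hSr (by positivity)
        _ = _ := by ring
    · intro Q H hQ X q hq
      have hcover : ((Icc 1 H).filter fun n : ℕ => ¬ ClassBounded F (∏ p ∈ P, p) (X + q * n)) ⊆
          S.biUnion fun U => (Icc 1 H).filter fun n : ℕ =>
            ∀ p ∈ P, Pool.Agent.H73.GP.Val U p ((X + q * n : ℤ) : ZMod p) := by
        intro n hn
        rw [mem_filter] at hn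
        obtain ⟨U, hU, h1⟩ := hSc _ hn.2
        rw [mem_biUnion]
        exact ⟨U, hU, mem_filter.2 ⟨hn.1, h1⟩⟩
      have h1 : (((Icc 1 H).filter fun n : ℕ => ¬ ClassBounded F (∏ p ∈ P, p) (X + q * n)).card : ℝ) ≤
          ∑ U ∈ S, (((Icc 1 H).filter fun n : ℕ =>
            ∀ p ∈ P, Pool.Agent.H73.GP.Val U p ((X + q * n : ℤ) : ZMod p)).card : ℝ) := by
        exact_mod_cast (card_le_card hcover).trans card_biUnion_le
      calc _ ≤ (∑ U ∈ S, (((Icc 1 H).filter fun n : ℕ =>
            ∀ p ∈ P, Pool.Agent.H73.GP.Val U p ((X + q * n : ℤ) : ZMod p)).card : ℝ)) * P.card :=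
            mul_le_mul_of_nonneg_right h1 (Nat.cast_nonneg _)
        _ = ∑ U ∈ S, (((Icc 1 H).filter fun n : ℕ =>
            ∀ p ∈ P, Pool.Agent.H73.GP.Val U p ((X + q * n : ℤ) : ZMod p)).card : ℝ) * P.card := by
            rw [sum_mul]
        _ ≤ ∑ _U ∈ S, 24 * (d : ℝ) ^ 2 * (H + (Q : ℝ) ^ 2) :=
            sum_le_sum fun U hU => Pool.Agent.H73.GP.count_interval hd hP' (hSU U hU) Q H hQ X q hq
        _ = S.card * (24 * (d : ℝ) ^ 2 * (H + (Q : ℝ) ^ 2)) := by
            rw [sum_const, nsmul_eq_mul]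
        _ ≤ _ := mul_le_mul_of_nonneg_right hSr (by positivity)
    · intro D D' W V hW hV hPD N hN M J
      have hlin : Pool.Agent.H73.CU.Lin (D * D') fun n => n * W n + V n :=
        Pool.Agent.H73.EF.lin_mul hW.per2.1 hW.per2.2 hV.per2
      have hcover : ((Ico M (M + N)).filter fun n : ℕ =>
            ∃ j : ℤ, |j| ≤ J ∧ ¬ ClassBounded F (∏ p ∈ P, p) (n * W n + V n + j)) ⊆
          (S ×ˢ Icc (-(J : ℤ)) J).biUnion fun s => ((range N).filter fun n => ∀ p ∈ P,
            Pool.Agent.H73.GP.Val s.1 p ((((M + n : ℕ) : ℤ) * W (M + n) + V (M + n) + s.2 : ℤ) : ZMod p)).image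
              fun n => M + n := by
        intro n hn
        rw [mem_filter, mem_Ico] at hn
        obtain ⟨hnI, j, hj, hnb⟩ := hn
        obtain ⟨U, hU, h1⟩ := hSc _ hnb
        rw [mem_biUnion]
        refine ⟨(U, j), ?_, ?_⟩
        · rw [mem_product, mem_Icc]
          exact ⟨hU, abs_le.1 hj⟩
        · rw [mem_image]
          refine ⟨n - M, ?_, by omega⟩
          rw [mem_filter, mem_range]
          refine ⟨by omega, ?_⟩
          have e : M + (n - M) = n := by omega
          simp only
          rw [e]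
          exact h1
      have hbd : ∀ s ∈ S ×ˢ Icc (-(J : ℤ)) J, ((((range N).filter fun n => ∀ p ∈ P,
            Pool.Agent.H73.GP.Val s.1 p ((((M + n : ℕ) : ℤ) * W (M + n) + V (M + n) + s.2 : ℤ) : ZMod p)).image
              fun n => M + n).card : ℝ) * P.card ≤ 56 * (d : ℝ) ^ 2 * N := by
        intro s hs
        rw [mem_product] at hs
        have h3 := Pool.Agent.H73.GP.count_lin hd hP' (hSU s.1 hs.1)
          (Pool.Agent.H73.EF.lin_shift hlin M s.2) hPD N hN
        refine le_trans ?_ h3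
        apply mul_le_mul_of_nonneg_right _ (Nat.cast_nonneg _)
        exact_mod_cast card_image_le
      have hcard : ((S ×ˢ Icc (-(J : ℤ)) J).card : ℝ) = S.card * (2 * J + 1) := by
        rw [card_product, Int.card_Icc]
        have e1 : ((J : ℤ) + 1 - -(J : ℤ)).toNat = 2 * J + 1 := by omega
        rw [e1]
        push_cast
        ring
      have h1 : (((Ico M (M + N)).filter fun n : ℕ =>
            ∃ j : ℤ, |j| ≤ J ∧ ¬ ClassBounded F (∏ p ∈ P, p) (n * W n + V n + j)).card : ℝ) ≤
          ∑ s ∈ S ×ˢ Icc (-(J : ℤ)) J, ((((range N).filter fun n => ∀ p ∈ P,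
            Pool.Agent.H73.GP.Val s.1 p ((((M + n : ℕ) : ℤ) * W (M + n) + V (M + n) + s.2 : ℤ) : ZMod p)).image
              fun n => M + n).card : ℝ) := by
        exact_mod_cast (card_le_card hcover).trans card_biUnion_le
      calc _ ≤ (∑ s ∈ S ×ˢ Icc (-(J : ℤ)) J, ((((range N).filter fun n => ∀ p ∈ P,
            Pool.Agent.H73.GP.Val s.1 p ((((M + n : ℕ) : ℤ) * W (M + n) + V (M + n) + s.2 : ℤ) : ZMod p)).image
              fun n => M + n).card : ℝ)) * P.card :=
            mul_le_mul_of_nonneg_right h1 (Nat.cast_nonneg _)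
        _ = ∑ s ∈ S ×ˢ Icc (-(J : ℤ)) J, ((((range N).filter fun n => ∀ p ∈ P,
            Pool.Agent.H73.GP.Val s.1 p ((((M + n : ℕ) : ℤ) * W (M + n) + V (M + n) + s.2 : ℤ) : ZMod p)).image
              fun n => M + n).card : ℝ) * P.card := by rw [sum_mul]
        _ ≤ ∑ _s ∈ S ×ˢ Icc (-(J : ℤ)) J, 56 * (d : ℝ) ^ 2 * N := sum_le_sum hbd
        _ = (S.card * (2 * J + 1)) * (56 * (d : ℝ) ^ 2 * N) := by
            rw [sum_const, nsmul_eq_mul, hcard]
        _ = S.card * (56 * (d : ℝ) ^ 2 * (2 * J + 1) * N) := by ring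
        _ ≤ _ := mul_le_mul_of_nonneg_right hSr (by positivity)
  · subst hF
    exact Pool.Agent.H73.GP.many_good F (by omega) hirr

end Pool.Agent.Results.MP_2d259b_nt.ResidueClasses
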