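import Pool.Agent.H76.PX.Rad

/-!
# Effective bounds for the integer points on the curves `w F (x, y) = n + e`, `n` composed of given primes, uniformly

Let `F ∈ ℤ[x, y]` have degree `d ≥ 4` and a leading form which is squarefree over `ℚ`.  We bound the number of
exceptions to the explicit inequality `max (|x|, |y|) ≤ ((d + 1) (h (F) + |t|)) ^ C(d)` for the integer points on the
curves `F (x, y) = t`, when `t = (n + e) / w` and `n` runs through all the integers composed of the primes of a finite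
set `Q`: at most `C ^ (|Q| + 1)` of these `n` (of any size) are exceptional, where `C` depends only on `d`, and not on
`F`, `w`, `e` and the primes.  At most `C Y (1 + log Y) ^ C` exceptional `n` of any size have a radical at most `Y`.
The library theorem `SmallRadicalFibres` has such bounds with constants depending on `F`, `w` and `e`.  The uniformity
in `e` has the following consequence: for arbitrary finite sets `A` of integers composed of the primes of `Q` and `B` of
integers, the inequality holds on the curve `w F (x, y) = n + e` for all but `C ^ (|Q| + 1) (|A| + |B|)` of the pairs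
`(n, e)` in `A × B`, for instance for almost all `t = b ^ l + b ^ m`.

Proof.  By the library theorem on the exceptional fibres (`H674R3.CovE`) the exceptional `t` are values of at most
`10 ^ 9 36 ^ d (d + 1) ^ 8` integer polynomials `U`, each constant or the restriction of `F` to a rational line, of degree
`d`.  So `n` is a value `V (k)` of `V = w U - e`.  If `V` is a power of a linear polynomial, up to a factor, it gives an
element of `P`.  Otherwise `V` has two different roots `r`, `s`, which generate a field `K` of degree at most `d ^ 2`.  At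
every prime of `K` which is not above `Q` the absolute values of `k - r` and `k - s` do not depend on `k` (Gauss' lemma).
So the points `x = (k - r) / (r - s)` of the curve `x + 1 + (- x - 1) = 0` have given absolute values outside `Q`, and the
number of such points is at most `C ^ (|Q| + 1)`, uniformly in the given values: this is the theorem of Evertse on the
equation `a u + b v = 1` in `S`-units, uniform in `a`, `b`.  It is deduced in `H76.PX.Fam` from the library theorem
`TH876.Loc.light_count` (the case where the part of the point outside `S` is small compared with its height) and a gap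
principle, which is uniform in the part outside `S`.
-/

set_option autoImplicit false

namespace Pool.Agent.Results.MP_2d259b_nt.ShiftedSUnits

/-- the sum of the absolute values of the coefficients -/
noncomputable def h (F : MvPolynomial (Fin 2) ℤ) : ℕ := ∑ m ∈ F.support, (F.coeff m).natAbs

/-- The integer points on the curve `F (x, y) = t` are bounded by
`((d + 1) (h (F) + |t|)) ^ (10 ^ 17 1296 ^ d (d + 1) ^ 15)`, `d` the degree of `F`. -/
def Bounded (F : MvPolynomial (Fin 2) ℤ) (t : ℤ) : Prop :=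
  ∀ x y : ℤ, MvPolynomial.eval ![x, y] F = t →
    max x.natAbs y.natAbs ≤
      ((F.totalDegree + 1) * (h F + t.natAbs)) ^
        (10 ^ 17 * 1296 ^ F.totalDegree * (F.totalDegree + 1) ^ 15)

/-- `n` is composed of the primes of `Q` -/
def Smooth (Q : Finset ℕ) (n : ℤ) : Prop := n ≠ 0 ∧ ∀ q : ℕ, q.Prime → (q : ℤ) ∣ n → q ∈ Q

/-- the product of the primes dividing `n` -/
def rad (n : ℤ) : ℕ := ∏ p ∈ n.natAbs.primeFactors, p

/-- `n` is exceptional: the bound fails for the curve `w F (x, y) = n + e`, and `n` is not of the form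
`w a z ^ d` with `(ε, a) ∈ P`, `e = w ε` and an integer `z`. -/
def Exceptional (F : MvPolynomial (Fin 2) ℤ) (P : Finset (ℚ × ℚ)) (w e n : ℤ) : Prop :=
  (∃ t : ℤ, w * t = n + e ∧ ¬ Bounded F t) ∧
    ∀ p ∈ P, ∀ z : ℤ, (e : ℚ) = w * p.1 → (n : ℚ) ≠ w * p.2 * (z : ℚ) ^ F.totalDegree

theorem result (d : ℕ) (hd : 4 ≤ d) : ∃ C : ℕ, ∀ F : MvPolynomial (Fin 2) ℤ, F.totalDegree = d →
    Squarefree (MvPolynomial.map (Int.castRingHom ℚ) (MvPolynomial.homogeneousComponent d F)) →
    -- the pairs `(ε, a)`: `F` is `ε + a (α k + β) ^ d` on a rational line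
    ∃ P : Finset (ℚ × ℚ), P.card ≤ 10 ^ 9 * 36 ^ d * (d + 1) ^ 8 ∧
      (∀ p ∈ P, p.2 ≠ 0 ∧ ∃ (x₀ y₀ u v α β : ℤ), (u ≠ 0 ∨ v ≠ 0) ∧ α ≠ 0 ∧
        ∀ k : ℤ, ((MvPolynomial.eval ![x₀ + u * k, y₀ + v * k] F : ℤ) : ℚ)
          = p.1 + p.2 * ((α : ℚ) * k + β) ^ d) ∧
      ∀ w : ℤ, w ≠ 0 →
        -- all the integers composed of the primes of `Q`
        (∀ (e : ℤ) (Q : Finset ℕ),
          {n : ℤ | Smooth Q n ∧ Exceptional F P w e n}.Finite ∧
          {n : ℤ | Smooth Q n ∧ Exceptional F P w e n}.ncard ≤ C ^ (Q.card + 1)) ∧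
        -- all the integers with a small radical
        (∀ (e : ℤ) (Y : ℝ), 1 ≤ Y →
          {n : ℤ | (rad n : ℝ) ≤ Y ∧ Exceptional F P w e n}.Finite ∧
          ({n : ℤ | (rad n : ℝ) ≤ Y ∧ Exceptional F P w e n}.ncard : ℝ)
            ≤ C * Y * (1 + Real.log Y) ^ C) ∧
        -- pairs
        ∀ (Q : Finset ℕ) (A B : Finset ℤ), (∀ n ∈ A, Smooth Q n) →
          {p : ℤ × ℤ | p.1 ∈ A ∧ p.2 ∈ B ∧ ∃ t : ℤ, w * t = p.1 + p.2 ∧ ¬ Bounded F t}.ncard
            ≤ C ^ (Q.card + 1) * (A.card + B.card) := by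
  classical
  obtain ⟨C₀, hC₀, hmain⟩ := Pool.Agent.H76.PX.sunit_main d hd
  obtain ⟨D, κ, hD, hrad⟩ := Pool.Agent.H76.PX.rad_sum C₀ hC₀
  -- one constant
  obtain ⟨C, hC⟩ : ∃ C : ℕ, C = ⌈C₀⌉₊ + ⌈D⌉₊ + κ + 1 + 10 ^ 9 * 36 ^ d * (d + 1) ^ 8 := ⟨_, rfl⟩
  have hCC₀ : C₀ ≤ C := (Nat.le_ceil C₀).trans (by rw [hC]; exact_mod_cast (by omega))
  have hCD : D + 1 ≤ C := by
    have h1 := Nat.le_ceil D
    have h2 : ⌈D⌉₊ + 1 ≤ C := by rw [hC]; omega
    have h3 : ((⌈D⌉₊ + 1 : ℕ) : ℝ) ≤ C := by exact_mod_cast h2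
    push_cast at h3
    linarith
  have hCκ : κ ≤ C := by rw [hC]; omega
  have hC1 : 1 ≤ C := by rw [hC]; omega
  refine ⟨C, ?_⟩
  intro F hF hsq
  rw [← hF] at hsq
  obtain ⟨P, h1, h2, h3⟩ := hmain F hF hsq
  have hPc : P.card ≤ 10 ^ 9 * 36 ^ d * (d + 1) ^ 8 := h1.trans (Pool.Agent.H674R3.kL_le d)
  refine ⟨P, hPc, h2, ?_⟩
  intro w hw
  have hfin : ∀ (e : ℤ) (Q : Finset ℕ) (A : Finset ℤ),
      (∀ n ∈ A, n ∈ {n | Exceptional F P w e n} ∧ Smooth Q n) → (A.card : ℝ) ≤ C₀ ^ (Q.card + 1) := by
    intro e Q A hA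
    apply h3 Q w e A hw (fun n hn => (hA n hn).2)
    · intro n hn
      obtain ⟨t, ht, hnb⟩ := (hA n hn).1.1
      exact ⟨t, ht, fun hb => hnb hb⟩
    · intro n hn p hp z he
      have := (hA n hn).1.2 p hp z he
      rwa [hF] at this
  refine ⟨?_, ?_, ?_⟩
  · intro e Q
    obtain ⟨g1, g2⟩ := Pool.Agent.H76.PX.finite_ncard
      (E := {n : ℤ | Smooth Q n ∧ Exceptional F P w e n}) (b := C₀ ^ (Q.card + 1))
      (fun A hA => hfin e Q A fun n hn => ⟨(hA n hn).2, (hA n hn).1⟩)
    refine ⟨g1, ?_⟩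
    have g3 : ({n : ℤ | Smooth Q n ∧ Exceptional F P w e n}.ncard : ℝ) ≤ (C : ℝ) ^ (Q.card + 1) :=
      g2.trans (pow_le_pow_left₀ (by linarith) hCC₀ _)
    exact_mod_cast g3
  · intro e Y hY
    have hlog : 0 ≤ Real.log Y := Real.log_nonneg hY
    apply Pool.Agent.H76.PX.finite_ncard
    intro A hA
    have g1 := hrad {n | Exceptional F P w e n} (fun Q s hs => hfin e Q s hs) Y hY
      (A.filter (fun n => n ≠ 0)) (by
        intro n hn
        rw [Finset.mem_filter] at hn
        exact ⟨(hA n hn.1).2, hn.2, (hA n hn.1).1⟩)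
    have g2 : A.card ≤ (A.filter (fun n => n ≠ 0)).card + 1 := by
      have := Finset.card_filter_add_card_filter_not (s := A) (fun n => n ≠ 0)
      have h4 : (A.filter (fun n => ¬ n ≠ 0)).card ≤ 1 := by
        rw [Finset.card_le_one]
        intro a ha b hb
        rw [Finset.mem_filter, not_not] at ha hb
        rw [ha.2, hb.2]
      omega
    have g3 : (A.card : ℝ) ≤ ((A.filter (fun n => n ≠ 0)).card : ℝ) + 1 := by exact_mod_cast g2
    have g4 : (1 : ℝ) ≤ (1 + Real.log Y) ^ κ := one_le_pow₀ (by linarith)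
    have g5 : (1 + Real.log Y) ^ κ ≤ (1 + Real.log Y) ^ C := pow_le_pow_right₀ (by linarith) hCκ
    have g6 : 1 ≤ Y * (1 + Real.log Y) ^ κ := by nlinarith
    calc (A.card : ℝ) ≤ D * Y * (1 + Real.log Y) ^ κ + 1 := by linarith
      _ ≤ D * Y * (1 + Real.log Y) ^ κ + Y * (1 + Real.log Y) ^ κ := by linarith
      _ = (D + 1) * Y * (1 + Real.log Y) ^ κ := by ring
      _ ≤ C * Y * (1 + Real.log Y) ^ C := by
        refine mul_le_mul (mul_le_mul_of_nonneg_right hCD (by linarith)) g5 (by linarith) (by positivity)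
  · intro Q A B hA
    obtain ⟨S, hS⟩ : ∃ S : Finset (ℤ × ℤ), S = (A ×ˢ B).filter
        (fun p => ∃ t : ℤ, w * t = p.1 + p.2 ∧ ¬ Bounded F t) := ⟨_, rfl⟩
    have hset : {p : ℤ × ℤ | p.1 ∈ A ∧ p.2 ∈ B ∧ ∃ t : ℤ, w * t = p.1 + p.2 ∧ ¬ Bounded F t}
        = (S : Set (ℤ × ℤ)) := by
      ext p
      rw [hS]
      simp only [Set.mem_ofPred_eq, Finset.coe_filter, Finset.mem_product, and_assoc]
    rw [hset, Set.ncard_coe_finset]
    -- the special values of `e`
    obtain ⟨B₁, hB₁⟩ : ∃ B₁ : Finset ℤ, B₁ = B.filter (fun e : ℤ => ∃ p ∈ P, (e : ℚ) = w * p.1) := ⟨_, rfl⟩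
    have hB₁c : B₁.card ≤ P.card := by
      have : ∀ e ∈ B₁, ∃ p ∈ P, (e : ℚ) = w * p.1 := by
        intro e he
        rw [hB₁, Finset.mem_filter] at he
        exact he.2
      choose! g hg1 hg2 using this
      apply Finset.card_le_card_of_injOn g hg1
      intro a ha b hb hab
      have e1 := hg2 a (Finset.mem_coe.1 ha)
      have e2 := hg2 b (Finset.mem_coe.1 hb)
      rw [hab, ← e2] at e1
      exact_mod_cast e1
    have hsum : S.card = ∑ e ∈ B, (S.filter (fun p => p.2 = e)).card := by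
      apply Finset.card_eq_sum_card_fiberwise
      intro p hp
      rw [hS, Finset.mem_coe, Finset.mem_filter, Finset.mem_product] at hp
      exact hp.1.2
    have hinj : ∀ e : ℤ, Set.InjOn Prod.fst ((S.filter (fun p => p.2 = e) : Finset (ℤ × ℤ)) : Set (ℤ × ℤ)) := by
      intro e p hp q hq hpq
      rw [Finset.mem_coe, Finset.mem_filter] at hp hq
      exact Prod.ext hpq (hp.2.trans hq.2.symm)
    have hgood : ∀ e ∈ B, e ∉ B₁ → (S.filter (fun p => p.2 = e)).card ≤ C ^ (Q.card + 1) := by
      intro e he he₁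
      have g1 := hfin e Q ((S.filter (fun p => p.2 = e)).image Prod.fst) (by
        intro n hn
        obtain ⟨p, hp, rfl⟩ := Finset.mem_image.1 hn
        rw [Finset.mem_filter, hS, Finset.mem_filter, Finset.mem_product] at hp
        obtain ⟨⟨⟨a1, -⟩, a2⟩, a3⟩ := hp
        refine ⟨⟨?_, ?_⟩, hA _ a1⟩
        · rw [a3] at a2
          exact a2
        · intro q hq z hez
          exact absurd (by rw [hB₁, Finset.mem_filter]; exact ⟨he, q, hq, hez⟩) he₁)
      rw [Finset.card_image_of_injOn (hinj e)] at g1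
      have g3 : ((S.filter (fun p => p.2 = e)).card : ℝ) ≤ (C : ℝ) ^ (Q.card + 1) :=
        g1.trans (pow_le_pow_left₀ (by linarith) hCC₀ _)
      exact_mod_cast g3
    have hbad : ∀ e : ℤ, (S.filter (fun p => p.2 = e)).card ≤ A.card := by
      intro e
      rw [← Finset.card_image_of_injOn (hinj e)]
      apply Finset.card_le_card
      intro n hn
      obtain ⟨p, hp, rfl⟩ := Finset.mem_image.1 hn
      rw [Finset.mem_filter, hS, Finset.mem_filter, Finset.mem_product] at hp
      exact hp.1.1.1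
    have hsplit : ∀ e ∈ B, (S.filter (fun p => p.2 = e)).card
        ≤ C ^ (Q.card + 1) + (if e ∈ B₁ then A.card else 0) := by
      intro e he
      split_ifs with h5
      · exact (hbad e).trans (Nat.le_add_left _ _)
      · exact (hgood e he h5).trans (Nat.le_add_right _ _)
    have hPC : P.card ≤ C ^ (Q.card + 1) := by
      have g1 : P.card ≤ C := hPc.trans (by rw [hC]; omega)
      exact g1.trans (Nat.le_self_pow (by omega) C)
    rw [hsum]
    calc ∑ e ∈ B, (S.filter (fun p => p.2 = e)).card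
        ≤ ∑ e ∈ B, (C ^ (Q.card + 1) + (if e ∈ B₁ then A.card else 0)) := Finset.sum_le_sum hsplit
      _ = B.card * C ^ (Q.card + 1) + (B.filter (fun e => e ∈ B₁)).card * A.card := by
        rw [Finset.sum_add_distrib, Finset.sum_const, smul_eq_mul, ← Finset.sum_filter,
          Finset.sum_const, smul_eq_mul]
      _ ≤ B.card * C ^ (Q.card + 1) + C ^ (Q.card + 1) * A.card := by
        gcongr
        refine le_trans ?_ (hB₁c.trans hPC)
        apply Finset.card_le_card
        intro e he
        exact (Finset.mem_filter.1 he).2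
      _ = C ^ (Q.card + 1) * (A.card + B.card) := by ring

end Pool.Agent.Results.MP_2d259b_nt.ShiftedSUnits
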